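import Mathlib
import Pool.Agent.Run7.h904.U16Main

/-!
# Geometrically finite polynomials are density points of hyperbolicity

Let `T` be a complex polynomial of degree `d ≥ 2` each of whose critical points escapes, is attracted
by a sink, lies in the basin of a parabolic cycle (a cycle whose multiplier is a root of unity; any
multiplier, any number of petals), is mapped onto a repelling cycle or is mapped onto a parabolic
cycle. (By well known theorems, which are not used and not proved here, these are the geometrically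
finite polynomials.)

Then there are countably many complex hyperplanes (kernels of non-zero linear functionals) of the
space `ℂ ^ (d + 1)` of coefficients such that in every linear family `v ↦ T + J (v)`,
`J : ℂ ^ ι → ℂ ^ (d + 1)` linear, whose directions `J (v)` do not all lie in one of these hyperplanes,
the polynomial `T` is a Lebesgue density point of hyperbolicity: the proportion of the `v` in the
polydisc `|v i| ≤ r` for which `T + J (v)` is not a hyperbolic polynomial of degree `d` tends to `0` as
`r → 0`.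

For `J` the identity: `T` is a Lebesgue density point of the set of hyperbolic polynomials of degree
`d`. For `ι` a point: the same holds in the complex lines through `T` in all directions outside the
countably many hyperplanes.

The ingredients are
* transversality in the family of polynomials: the multipliers and the displacements of the
  parabolic cycles (starting files, `Pool/Agent/H713R5/QJ`), and the critical relations
  `T^N (v) = T^m (v)` (new, `R2Push`, `R2Tr`, `T3Pol`: a relation which is not transversal gives a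
  quadratic differential with simple poles which is invariant under `T`);
* the orbits near a parabolic point whose multiplier is perturbed to `1 + μ`, `|Re μ| ≥ ε |μ|`
  (`PLoc2`), and near a repelling cycle (`R3Rep`);
* the unfolding of a fixed point of multiplier one and multiplicity `k + 1` in a direction in which
  the return map moves with non-zero speed (new, `S1Tau` - `S11App`);
* the critical orbits which are mapped onto a parabolic cycle (new, `U1Cap` - `U11Seq`): if the
  multiplier of the cycle is not one, then they are captured unless the size of the perturbation is in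
  an exceptional set, which is small in the logarithmic scale for almost every direction (`U3Main`,
  `U6LandA`); if it is one then they are captured in almost every direction (`U7LandB`); `U8Dens`
  integrates this over the rays through `T`;
* the set of points which are neither attracted by a sink nor by a parabolic cycle has zero area
  (`Z1Cov` - `Z9Zero`, `U12Zero`).
-/

set_option autoImplicit false

open MeasureTheory Filter Metric Topology Polynomial

namespace Pool.Agent.Results.MP_28f8a1_an.AllGeometricallyFinite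

/-- The polynomial as a self-map of the plane. -/
def map (T : ℂ[X]) : ℂ → ℂ := fun z : ℂ => T.eval z

/-- The orbit of `z` escapes to infinity. -/
def Escapes (T : ℂ[X]) (z : ℂ) : Prop :=
  Tendsto (fun k : ℕ => ‖(map T)^[k] z‖) atTop atTop

/-- The orbit of `z` is attracted by a sink of `T`. -/
def Attracted (T : ℂ[X]) (z : ℂ) : Prop :=
  ∃ n : ℕ, 0 < n ∧ ∃ x : ℂ, (map T)^[n] x = x ∧ ‖deriv ((map T)^[n]) x‖ < 1 ∧
    Tendsto (fun k : ℕ => (map T)^[n * k] z) atTop (𝓝 x)

/-- `T` is hyperbolic: every critical point escapes or is attracted by a sink. -/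
def Hyperbolic (T : ℂ[X]) : Prop :=
  ∀ c : ℂ, T.derivative.eval c = 0 → Escapes T c ∨ Attracted T c

/-- The point `z` lies in the basin of a parabolic cycle: `x` is a periodic point of exact period `p`
whose multiplier is a `q`-th root of unity, the points `T ^ (p q k) (z)` converge to `x`, and `z` is
not mapped onto `x`. -/
def ParabolicBasin (T : ℂ[X]) (z : ℂ) : Prop :=
  ∃ (p q : ℕ) (x : ℂ), 0 < p ∧ 0 < q ∧ (map T)^[p] x = x ∧
    (∀ m : ℕ, 0 < m → m < p → (map T)^[m] x ≠ x) ∧ (deriv ((map T)^[p]) x) ^ q = 1 ∧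
    Tendsto (fun k : ℕ => (map T)^[p * q * k] z) atTop (𝓝 x) ∧ ∀ k : ℕ, (map T)^[k] z ≠ x

/-- The point `z` is mapped onto a repelling cycle: `x = T^m (z)` is fixed by `T^p` and
`|(T^p)' (x)| > 1`. -/
def OntoRepelling (T : ℂ[X]) (z : ℂ) : Prop :=
  ∃ (m p : ℕ) (x : ℂ), 0 < p ∧ (map T)^[m] z = x ∧ (map T)^[p] x = x ∧
    1 < ‖deriv ((map T)^[p]) x‖

/-- The point `z` is mapped onto a parabolic cycle: `x = T^m (z)` is a periodic point of exact period
`p` whose multiplier is a `q`-th root of unity. -/
def OntoParabolic (T : ℂ[X]) (z : ℂ) : Prop :=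
  ∃ (m p q : ℕ) (x : ℂ), 0 < p ∧ 0 < q ∧ (map T)^[m] z = x ∧ (map T)^[p] x = x ∧
    (∀ j : ℕ, 0 < j → j < p → (map T)^[j] x ≠ x) ∧ (deriv ((map T)^[p]) x) ^ q = 1

/-- The polynomial with the given coefficients (of the degrees `0, …, d`). -/
noncomputable def poly {d : ℕ} (a : Fin (d + 1) → ℂ) : ℂ[X] :=
  ∑ i : Fin (d + 1), C (a i) * X ^ (i : ℕ)

open Run7.h904.RF Pool.Agent.H790R3.RB Pool.Agent.W757.QR in
theorem result (T : ℂ[X]) (hT : 2 ≤ T.natDegree)
    (hc : ∀ c : ℂ, T.derivative.eval c = 0 →
      Escapes T c ∨ Attracted T c ∨ ParabolicBasin T c ∨ OntoRepelling T c ∨ OntoParabolic T c) :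
    ∃ S : Set ((Fin (T.natDegree + 1) → ℂ) →ₗ[ℂ] ℂ), S.Countable ∧
      (0 : (Fin (T.natDegree + 1) → ℂ) →ₗ[ℂ] ℂ) ∉ S ∧
      ∀ (ι : Type) [Fintype ι] (J : (ι → ℂ) →ₗ[ℂ] (Fin (T.natDegree + 1) → ℂ)),
        (∀ L ∈ S, L.comp J ≠ 0) →
        Tendsto (fun r : ℝ => volume {v : ι → ℂ | (∀ i, ‖v i‖ ≤ r) ∧
          ¬ ((T + poly (J v)).natDegree = T.natDegree ∧ Hyperbolic (T + poly (J v)))} /
          volume {v : ι → ℂ | ∀ i, ‖v i‖ ≤ r}) (𝓝[>] 0) (𝓝 0) := by
  have hd2 : 2 ≤ T.natDegree := hT
  obtain ⟨a, haT⟩ : ∃ a : Fin (T.natDegree + 1) → ℂ, a = fun j : Fin (T.natDegree + 1) => T.coeff j := ⟨_, rfl⟩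
  have hpl : pl a = T := by rw [haT]; exact exists_pl T le_rfl
  have hpoly : ∀ b : Fin (T.natDegree + 1) → ℂ, poly b = pl b := by
    intro b
    unfold poly pl
    refine Finset.sum_congr rfl fun j _ => ?_
    rw [C_mul_X_pow_eq_monomial]
  have hdeg : (pl a).natDegree = T.natDegree := by rw [hpl]
  have hx := ND_xP hd2 a hdeg
  have hde := de_xP a
  have hnu : nu (xP a) = T := by rw [nu_xP, hpl]
  have hdeg2 : 2 ≤ (nu (xP a)).natDegree := by rw [hnu]; exact hT
  have hfx : ∀ b : Fin (T.natDegree + 1) → ℂ, fx (xP b) = map (pl b) := by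
    intro b
    rw [fx_ev (de_xP b), nu_xP]
    rfl
  have hfxa : fx (xP a) = map T := by rw [hfx, hpl]
  have hwn : ∀ (b : Fin (T.natDegree + 1) → ℂ) (c : ℂ),
      (wn (nu (xP b)) (de (xP b))).eval c = (pl b).derivative.eval c := by
    intro b c
    rw [de_xP, nu_xP]
    simp [wn]
  -- critical points
  have hcc : ∀ (b : Fin (T.natDegree + 1) → ℂ) (c : ℂ), (pl b).derivative.eval c = 0 →
      (c : OnePoint ℂ) ∈ Crt (xP b) := by
    intro b c hbc
    refine ⟨(c, 1), fun h => one_ne_zero (congrArg Prod.snd h), ?_, by simp [pr]⟩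
    rw [Pool.Agent.W440.RE.GENM.wr_wn, hwn, hbc, mul_zero]
  -- hyperbolicity
  have hHy : ∀ b : Fin (T.natDegree + 1) → ℂ, (pl b).natDegree = T.natDegree → HyR (xP b) →
      Hyperbolic (pl b) := by
    intro b hb hyp c hbc
    have h1 := hyp.2 _ (hcc b c hbc)
    have h2 := attd_cases hd2 hyp.1 (de_xP b) (by rw [nu_xP, hb]; exact hT) c h1
    rw [hfx] at h2
    exact h2
  -- the critical points of `T`
  have htr : ∀ c : ℂ, Escapes T c ∨ Attracted T c →
      Attd (sp (xP a)) (c : OnePoint ℂ) := by
    intro c h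
    rcases h with h | ⟨n, hn, x, h1, h2, h3⟩
    · exact attd_of_esc hd2 hx hde hdeg2 c (by rw [hfxa]; exact h)
    · refine ⟨n, (x : OnePoint ℂ), Pool.Agent.W29.RQSNK.sink (xP a) n x hn (fin_all hde x)
        (by rw [hfxa]; exact h1) (by rw [hfxa]; exact h2), ?_⟩
      refine ((OnePoint.continuous_coe.tendsto _).comp h3).congr fun k => ?_
      simp only [Function.comp]
      rw [it_ev hd2 hx hde, hfxa]
  have htp : ∀ c : ℂ, ParabolicBasin T c → ∃ b, ParB (sp (xP a)) (c : OnePoint ℂ) b := by
    rintro c ⟨p, q, x, hp, hq, hfix, hmin, hmul, hlim, hne⟩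
    refine ⟨(x : OnePoint ℂ), p, q, ⟨hp, hq, ?_, deriv ((map T)^[p]) x,
      fun w => (map T)^[p] (x + w) - x, hmul, ?_, ?_, ?_⟩, ?_, ?_⟩
    · intro m hm1 hm2 h0
      rw [it_ev hd2 hx hde, hfxa] at h0
      exact hmin m hm1 hm2 (OnePoint.coe_injective h0)
    · simp only [add_zero]
      rw [hfix, sub_self]
    · have hdiff : DifferentiableAt ℂ ((map T)^[p]) x := by
        have h1 := Pool.Agent.W29.RQSNK.fx_iter_diff (xP a) x p (fun j _ => fin_all hde x j)
        rwa [hfxa] at h1
      have h2 : HasDerivAt ((map T)^[p]) (deriv ((map T)^[p]) x) (x + 0) := by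
        rw [add_zero]; exact hdiff.hasDerivAt
      have h3 := h2.comp_const_add x 0
      exact h3.sub_const x
    · refine Eventually.of_forall fun w => ?_
      rw [Pool.Agent.W757.RF.chart_coe, Pool.Agent.W757.RF.chart_coe, it_ev hd2 hx hde, hfxa,
        add_sub_cancel]
    · refine ((OnePoint.continuous_coe.tendsto _).comp hlim).congr fun k => ?_
      simp only [Function.comp]
      rw [it_ev hd2 hx hde, hfxa]
    · intro k h0
      rw [it_ev hd2 hx hde, hfxa] at h0
      exact hne k (OnePoint.coe_injective h0)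
  have htr2 : ∀ c : ℂ, OntoRepelling T c → PreP (sp (xP a)) (c : OnePoint ℂ) := by
    rintro c ⟨m, p, x, hp, hm, hfix, hrep⟩
    refine ⟨m, p, hp, deriv ((map T)^[p]) x, fun w => (map T)^[p] (x + w) - x, hrep, ?_, ?_, ?_⟩
    · simp only [add_zero]
      rw [hfix, sub_self]
    · have hdiff : DifferentiableAt ℂ ((map T)^[p]) x := by
        have h1 := Pool.Agent.W29.RQSNK.fx_iter_diff (xP a) x p (fun j _ => fin_all hde x j)
        rwa [hfxa] at h1
      have h2 : HasDerivAt ((map T)^[p]) (deriv ((map T)^[p]) x) (x + 0) := by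
        rw [add_zero]; exact hdiff.hasDerivAt
      have h3 := h2.comp_const_add x 0
      exact h3.sub_const x
    · refine Eventually.of_forall fun w => ?_
      rw [it_ev hd2 hx hde, hfxa, hm, Pool.Agent.W757.RF.chart_coe, Pool.Agent.W757.RF.chart_coe,
        it_ev hd2 hx hde, hfxa, add_sub_cancel]
  have htr3 : ∀ c : ℂ, OntoParabolic T c → PreN (sp (xP a)) (c : OnePoint ℂ) := by
    rintro c ⟨m, p, q, x, hp, hq, hm, hfix, hmin, hmul⟩
    refine ⟨m, p, q, hp, hq, ?_, deriv ((map T)^[p]) x, fun w => (map T)^[p] (x + w) - x, hmul,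
      ?_, ?_, ?_⟩
    · intro j hj1 hj2 h0
      rw [it_ev hd2 hx hde, it_ev hd2 hx hde, hfxa, hm] at h0
      exact hmin j hj1 hj2 (OnePoint.coe_injective h0)
    · simp only [add_zero]
      rw [hfix, sub_self]
    · have hdiff : DifferentiableAt ℂ ((map T)^[p]) x := by
        have h1 := Pool.Agent.W29.RQSNK.fx_iter_diff (xP a) x p (fun j _ => fin_all hde x j)
        rwa [hfxa] at h1
      have h2 : HasDerivAt ((map T)^[p]) (deriv ((map T)^[p]) x) (x + 0) := by
        rw [add_zero]; exact hdiff.hasDerivAt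
      have h3 := h2.comp_const_add x 0
      exact h3.sub_const x
    · refine Eventually.of_forall fun w => ?_
      rw [it_ev hd2 hx hde, hfxa, hm, Pool.Agent.W757.RF.chart_coe, Pool.Agent.W757.RF.chart_coe,
        it_ev hd2 hx hde, hfxa, add_sub_cancel]
  have hcr : ∀ c : ℂ, (c : OnePoint ℂ) ∈ Crt (xP a) → T.derivative.eval c = 0 := by
    intro c h
    have h1 := crt_wn hd2 (xP a) c h
    rw [hwn, hpl] at h1
    exact h1
  -- the degree of nearby polynomials
  have hlead : T.coeff T.natDegree ≠ 0 := by
    rw [coeff_natDegree, Ne, leadingCoeff_eq_zero]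
    rintro rfl
    simp at hT
  have hpc : ∀ (b : Fin (T.natDegree + 1) → ℂ), (pl b).coeff T.natDegree = b (Fin.last _) := by
    intro b
    have h1 := Pool.Agent.H790R3.RB.PQ.pol_coeff (xP b) 0 (Fin.last T.natDegree)
    have h2 : pol (xP b) 0 = pl b := nu_xP b
    rw [h2] at h1
    exact h1
  have hdegb : ∀ b : Fin (T.natDegree + 1) → ℂ, b (Fin.last _) ≠ 0 →
      (pl b).natDegree = T.natDegree := by
    intro b hb
    refine le_antisymm (pl_natDegree b) (le_natDegree_of_ne_zero ?_)
    rw [hpc]
    exact hb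
  obtain ⟨S, hSc, hS0, hS⟩ := mainP5 hd2 a hdeg (by
      intro z hz
      induction z using OnePoint.rec with
      | infty => exact Or.inl (attd_inf hd2 hx hde hdeg2)
      | coe c =>
        rcases hc c (hcr c hz) with h1 | h1 | h1 | h1 | h1
        · exact Or.inl (htr c (Or.inl h1))
        · exact Or.inl (htr c (Or.inr h1))
        · exact Or.inr (Or.inl (htp c h1))
        · exact Or.inr (Or.inr (Or.inl (htr2 c h1)))
        · exact Or.inr (Or.inr (Or.inr (htr3 c h1))))
  refine ⟨S, hSc, hS0, fun ι _ J hJ => ?_⟩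
  obtain ⟨g1, -⟩ := hS ι J hJ
  have hpv : ∀ v : ι → ℂ, pl (a + J v) = T + poly (J v) := by
    intro v
    have hadd : pl (a + J v) = pl a + pl (J v) := by
      unfold pl
      rw [← Finset.sum_add_distrib]
      refine Finset.sum_congr rfl fun j _ => ?_
      rw [Pi.add_apply, map_add]
    rw [hpoly, hadd]
    exact congrArg (fun X => X + pl (J v)) hpl
  -- the leading coefficient
  have hlc : ∀ᶠ r : ℝ in 𝓝[>] 0, ∀ v : ι → ℂ, (∀ i, ‖v i‖ ≤ r) → (a + J v) (Fin.last _) ≠ 0 := by
    have hJc : Continuous fun v : ι → ℂ => (a + J v) (Fin.last _) := by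
      have h1 : Continuous fun v : ι → ℂ => J v := J.continuous_of_finiteDimensional
      exact (continuous_apply _).comp (continuous_const.add h1)
    have h0 : (a + J (0 : ι → ℂ)) (Fin.last _) ≠ 0 := by
      rw [map_zero, add_zero, haT]
      simp only [Fin.val_last]
      exact hlead
    obtain ⟨ε, hε, hb⟩ := Metric.eventually_nhds_iff.1 (hJc.continuousAt.eventually_ne h0)
    filter_upwards [Ioo_mem_nhdsGT hε] with r hr v hv
    refine hb ?_
    rw [dist_zero_right]
    exact ((pi_norm_le_iff_of_nonneg hr.1.le).2 hv).trans_lt hr.2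
  refine tendsto_of_tendsto_of_tendsto_of_le_of_le' tendsto_const_nhds g1
    (Eventually.of_forall fun _ => zero_le) ?_
  filter_upwards [hlc] with r hr
  refine ENNReal.div_le_div_right (measure_mono ?_) _
  rintro v ⟨h3, h4⟩
  refine ⟨h3, fun h5 => h4 ?_⟩
  rw [← hpv]
  exact ⟨hdegb _ (hr v h3), hHy _ (hdegb _ (hr v h3)) h5⟩

end Pool.Agent.Results.MP_28f8a1_an.AllGeometricallyFinite
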