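import Mathlib
import Pool.Agent.Run7.h598.ST.Fin

set_option autoImplicit false

open Filter Topology Polynomial MeasureTheory

namespace Pool.Agent.Results.MP_28f8a1_an.TypesInSymmetricStrata

/-- The polynomial as a self-map of the plane. -/
def map (T : ℂ[X]) : ℂ → ℂ := fun w : ℂ => T.eval w

/-- The orbit of `u` escapes to infinity. -/
def Escapes (T : ℂ[X]) (u : ℂ) : Prop :=
  Tendsto (fun k : ℕ => ‖(map T)^[k] u‖) atTop atTop

/-- `w` is a sink of `T`, and `q > 0` is a (not necessarily minimal) period of `w`. -/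
structure Sink (T : ℂ[X]) (q : ℕ) (w : ℂ) : Prop where
  pos : 0 < q
  fix : (map T)^[q] w = w
  mul : ‖deriv ((map T)^[q]) w‖ < 1

/-- The points `T^(q l) (u)` converge to `w`. -/
def Goes (T : ℂ[X]) (q : ℕ) (w u : ℂ) : Prop :=
  Tendsto (fun l : ℕ => (map T)^[q * l] u) atTop (𝓝 w)

/-- `T` is hyperbolic: every critical point escapes or is attracted by a sink. -/
def Hyperbolic (T : ℂ[X]) : Prop :=
  ∀ u : ℂ, (derivative T).eval u = 0 →
    Escapes T u ∨ ∃ (q : ℕ) (w : ℂ), Sink T q w ∧ Goes T q w u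

/-- The rotation orbit `{u, ω u, …, ω^(q-1) u}` of `u`. -/
noncomputable def orbit (ω : ℂ) (q : ℕ) (u : ℂ) : Finset ℂ :=
  (Finset.range q).image (fun l => ω ^ l * u)

/-- The stratum with symmetry `ω` (a primitive `q`-th root of unity) and multiplicities `m`:
`T (ω z) = ω ^ deg T * T z`, the critical points of `T` are the points of the pairwise disjoint
rotation orbits of `c 0, …, c (r-1)`, and those in the orbit of `c i` have multiplicity `m i`. -/
structure Stratum {r : ℕ} (ω : ℂ) (q : ℕ) (m : Fin r → ℕ) (T : ℂ[X]) (c : Fin r → ℂ) : Prop where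
  sym : ∀ z, T.eval (ω * z) = ω ^ T.natDegree * T.eval z
  crit : derivative T = C ((T.natDegree : ℂ) * T.leadingCoeff) *
    ∏ i, ∏ w ∈ orbit ω q (c i), (X - C w) ^ (m i)
  dis : ∀ i j, i ≠ j → ∀ l : ℕ, ω ^ l * c i ≠ c j

open Pool.Agent.H713R3.ZA Run7.h598.ST in
/-- Density of hyperbolicity inside the symmetric strata. Let `T` be a polynomial of degree at
least 2 whose filled Julia set has zero area, let `ω` be a primitive `q`-th root of unity such that
`T (ω z) = ω ^ deg T * T z` (no condition if `q = 1`), and let `m i` be the multiplicities of the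
critical points `c i` of `T`, one in each orbit of the rotation by `ω`. Then `T` is a limit of
hyperbolic polynomials of the SAME stratum (same degree, leading coefficient, symmetry, number of
critical points and multiplicities), and all types occur: for every assignment `τ` of a fate to the
`c i` (`none`: to escape; `some j`, `j < k`: to be attracted by the sink number `j`) under which all
escaping `c i` still escape and which takes each of the `k` values, every `ε > 0` and every `N`
there is such a polynomial `S` with critical points `s i`, within `ε` of `T` and `c`, such that the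
`s i` have the prescribed fates and the minimal periods `p j` of the sinks are different primes
`p j ≥ N`. -/
theorem result (q : ℕ) (hq : 1 ≤ q) (ω : ℂ) (hω : IsPrimitiveRoot ω q) (r : ℕ) (m : Fin r → ℕ)
    (hm : ∀ i, 1 ≤ m i) (T : ℂ[X]) (hT : 2 ≤ T.natDegree) (c : Fin r → ℂ)
    (hc : Stratum ω q m T c) (hvol : volume {z : ℂ | ¬ Escapes T z} = 0) (ε : ℝ) (hε : 0 < ε)
    (k : ℕ) (τ : Fin r → Option (Fin k)) (hesc : ∀ i, Escapes T (c i) → τ i = none)
    (hτ : ∀ j, ∃ i, τ i = some j) (N : ℕ) :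
    ∃ (S : ℂ[X]) (s : Fin r → ℂ) (p : Fin k → ℕ) (z : Fin k → ℂ),
      S.natDegree = T.natDegree ∧ S.leadingCoeff = T.leadingCoeff ∧ Stratum ω q m S s ∧
      (∀ j : ℕ, ‖S.coeff j - T.coeff j‖ < ε) ∧ (∀ i, ‖s i - c i‖ < ε) ∧ Hyperbolic S ∧
      (∀ i, τ i = none → Escapes S (s i)) ∧
      (∀ i j, τ i = some j → Goes S (p j) (z j) (s i)) ∧
      Function.Injective p ∧
      ∀ j, (p j).Prime ∧ N ≤ p j ∧ Sink S (p j) (z j) ∧
        Function.minimalPeriod (map S) (z j) = p j := by
  classical
  obtain ⟨n, hn⟩ : ∃ n, T.natDegree = n + 1 := ⟨T.natDegree - 1, by omega⟩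
  have hn1 : 1 ≤ n := by omega
  obtain ⟨a, ha'⟩ : ∃ a : ℂ, a = T.leadingCoeff := ⟨_, rfl⟩
  have hT0 : T ≠ 0 := by
    rintro rfl
    simp at hT
  have ha : a ≠ 0 := by rw [ha']; exact leadingCoeff_ne_zero.mpr hT0
  have hωq : ω ^ q = 1 := hω.pow_eq_one
  have hωn : ‖ω‖ = 1 := Complex.norm_eq_one_of_pow_eq_one hωq (by omega)
  have hω0 : ω ≠ 0 := by
    intro h
    rw [h, norm_zero] at hωn
    exact zero_ne_one hωn
  have hsym : ∀ z, T.eval (ω * z) = ω ^ (n + 1) * T.eval z := by
    intro z; rw [← hn]; exact hc.sym z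
  obtain ⟨hcase0, hcase1⟩ := sym_cases hω0 hsym hvol
  have hcn : (T.natDegree : ℂ) * T.leadingCoeff ≠ 0 := by
    rw [hn, ← ha']
    push_cast
    exact mul_ne_zero (Nat.cast_add_one_ne_zero n) ha
  -- zeros of the derivative
  have hroot : ∀ (S : ℂ[X]) (s : Fin r → ℂ) (b : ℂ), b ≠ 0 →
      derivative S = C b * ∏ i, ∏ w ∈ orbit ω q (s i), (X - C w) ^ (m i) → ∀ u : ℂ,
      (derivative S).eval u = 0 ↔ ∃ (i : Fin r) (l : ℕ), u = ω ^ l * s i := by
    intro S s b hb hS u
    rw [hS, eval_mul, eval_C, mul_eq_zero, or_iff_right hb, eval_prod, Finset.prod_eq_zero_iff]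
    constructor
    · rintro ⟨i, -, hi⟩
      rw [eval_prod, Finset.prod_eq_zero_iff] at hi
      obtain ⟨w, hw, hw2⟩ := hi
      rw [eval_pow, pow_eq_zero_iff (by have := hm i; omega), eval_sub, eval_X, eval_C,
        sub_eq_zero] at hw2
      obtain ⟨l, -, hl⟩ := Finset.mem_image.mp hw
      exact ⟨i, l, by rw [hw2, ← hl]⟩
    · rintro ⟨i, l, hu⟩
      refine ⟨i, Finset.mem_univ i, ?_⟩
      rw [eval_prod, Finset.prod_eq_zero_iff]
      refine ⟨u, Finset.mem_image.mpr ⟨l % q, Finset.mem_range.mpr (Nat.mod_lt _ hq), ?_⟩, ?_⟩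
      · rw [← pow_eq_pow_mod _ hωq, hu]
      · rw [eval_pow, eval_sub, eval_X, eval_C, sub_self, zero_pow (by have := hm i; omega)]
  have hrootT := hroot T c _ hcn hc.crit
  -- the indices
  have hprodT : ∏ x : II r (oo q r c) m, (X - C (zI q r ω c m x * c x.1)) =
      ∏ i, ∏ w ∈ orbit ω q (c i), (X - C w) ^ (m i) :=
    prod_orb hω hq (fun i h _ => h) (fun i h _ => h)
  have hcard : Fintype.card (II r (oo q r c) m) = n := by
    have h1 : (derivative T).natDegree = n := by
      rw [natDegree_derivative, hn]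
      rfl
    rw [hc.crit, natDegree_C_mul hcn, ← hprodT,
      natDegree_prod_of_monic _ _ (fun x _ => monic_X_sub_C _)] at h1
    simp only [natDegree_X_sub_C, Finset.sum_const, Finset.card_univ, smul_eq_mul, mul_one] at h1
    exact h1
  obtain ⟨e⟩ : Nonempty (II r (oo q r c) m ≃ Fin n) := ⟨Fintype.equivFinOfCardEq hcard⟩
  have hTfam : fam a n (xs ω e (T.coeff 0) c) = T := by
    have h1 : derivative T = C (((n : ℂ) + 1) * T.leadingCoeff) *
        ∏ j : Fin n, (X - C (xs ω e (T.coeff 0) c (some j))) := by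
      rw [xs_prod, hprodT, hc.crit, hn]
      push_cast
      rfl
    have h2 := Pool.Agent.W820.BM.fam_of_deriv h1
    rw [← ha'] at h2
    exact h2
  have hr : 0 < r := by
    rcases Nat.eq_zero_or_pos r with h | h
    · exfalso
      subst h
      rw [Fintype.card_eq_zero] at hcard
      omega
    · exact h
  -- the family
  have hzero : (derivative T).eval 0 = 0 ↔ ∃ i, c i = 0 := by
    rw [hrootT]
    constructor
    · rintro ⟨i, l, h⟩
      exact ⟨i, (mul_eq_zero.mp h.symm).resolve_left (pow_ne_zero l hω0)⟩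
    · rintro ⟨i, h⟩
      exact ⟨i, 0, by rw [h, mul_zero]⟩
  obtain ⟨s', κ, ζ₀, yT, hκ, hζ₀, hsur, hcen, hy0, hy1⟩ := exists_kappa (ω := ω) (n := n) (c := c)
    (t₀ := T.coeff 0) (fun i j hij h => hc.dis i j hij 0 (by rw [pow_zero, one_mul]; exact h)) hr
    (fun h _ => hcase0 (hzero.mpr h)) (fun h h' => by
      rw [coeff_zero_eq_eval_zero]
      exact (hcase1 (fun h2 => by
        obtain ⟨i, hi⟩ := hzero.mp h2
        exact h i hi)).2 h')
  have hmap : map T = fx a n (xs ω e (T.coeff 0) c) := by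
    unfold map fx
    rw [hTfam]
  -- the distances
  obtain ⟨ε₁, hε₁, hcoeff⟩ := Run7.h598.TT.coeff_close a n (xs ω e (T.coeff 0) c) hε
  obtain ⟨d₁, hd₁, hd₁'⟩ := exists_below
    (fun x : Fin r × Fin r × Fin q => if x.1 = x.2.1 then 1 else
      ‖ω ^ (x.2.2 : ℕ) * c x.1 - c x.2.1‖ / 2) (by
      rintro ⟨i, j, l⟩
      simp only
      split_ifs with h
      · exact one_pos
      · have h1 := hc.dis i j h l
        have h2 : 0 < ‖ω ^ (l : ℕ) * c i - c j‖ := norm_pos_iff.mpr (sub_ne_zero.mpr h1)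
        positivity)
  obtain ⟨d₂, hd₂, hd₂'⟩ := exists_below (fun i : Fin r => if c i = 0 then 1 else ‖c i‖) (by
      intro i
      split_ifs with h
      · exact one_pos
      · exact norm_pos_iff.mpr h)
  obtain ⟨t, s, p, z, ht, hs0, hclx, hcls, hpinj, hpz, hnone, hsome⟩ := types_of Pool.Agent.H713R5.QJ.hh
    ha hn1 hω hq hm e hκ hζ₀ hsur hcen hy0 hy1 (by
      rw [hTfam]
      exact hvol) (ε := min (min ε ε₁) (min d₁ d₂)) (lt_min (lt_min hε hε₁) (lt_min hd₁ hd₂)) k τ
    (fun i hi => hesc i (by unfold Escapes; rw [hmap]; exact hi)) hτ N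
  have hε' : ∀ i, ‖s i - c i‖ < ε := fun i =>
    (hcls i).trans_le ((min_le_left _ _).trans (min_le_left _ _))
  have hd1 : ∀ i, ‖s i - c i‖ < d₁ := fun i =>
    (hcls i).trans_le ((min_le_right _ _).trans (min_le_left _ _))
  have hd2 : ∀ i, ‖s i - c i‖ < d₂ := fun i =>
    (hcls i).trans_le ((min_le_right _ _).trans (min_le_right _ _))
  obtain ⟨x, hx⟩ : ∃ x : PE n, x = xs ω e t s := ⟨_, rfl⟩
  rw [← hx] at hclx hpz hnone hsome
  have hmapS : map (fam a n x) = fx a n x := rfl
  have hdegS : (fam a n x).natDegree = n + 1 := natDegree_fam ha n x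
  have hlcS : (fam a n x).leadingCoeff = a := Pool.Agent.W820.BM.leadingCoeff_fam ha n x
  have hsymS : ∀ w, (fam a n x).eval (ω * w) = ω ^ (n + 1) * (fam a n x).eval w := by
    intro w
    rw [hx]
    exact eval_sym (xs_sym hωq e t s ht) w
  have hcritS : derivative (fam a n x) = C (((fam a n x).natDegree : ℂ) *
      (fam a n x).leadingCoeff) * ∏ i, ∏ w ∈ orbit ω q (s i), (X - C w) ^ (m i) := by
    have h1 : ∏ x : II r (oo q r c) m, (X - C (zI q r ω c m x * s x.1)) =
        ∏ i, ∏ w ∈ orbit ω q (s i), (X - C w) ^ (m i) := by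
      apply prod_orb hω hq hs0
      intro i hi _ hsi
      have h2 := hd₂' i
      rw [if_neg hi] at h2
      have h3 := hd2 i
      rw [hsi, zero_sub, norm_neg] at h3
      linarith
    rw [hdegS, hlcS, derivative_fam, ← h1, ← xs_prod e t s, ← hx]
    unfold dfam
    push_cast
    rw [mul_comm a]
  have hdisS : ∀ i j, i ≠ j → ∀ l : ℕ, ω ^ l * s i ≠ s j := by
    intro i j hij l hl
    have h1 := hd₁' (i, j, ⟨l % q, Nat.mod_lt _ hq⟩)
    simp only [if_neg hij] at h1
    rw [← pow_eq_pow_mod _ hωq] at h1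
    have h2 : ω ^ l * c i - c j = -(ω ^ l * (s i - c i)) + (s j - c j) := by
      rw [← hl]; ring
    have h3 := norm_add_le (-(ω ^ l * (s i - c i))) (s j - c j)
    rw [← h2, norm_neg, norm_mul, norm_pow, hωn, one_pow, one_mul] at h3
    have h4 := hd1 i
    have h5 := hd1 j
    linarith
  have hiter : ∀ (k l : ℕ) (w : ℂ), (map (fam a n x))^[k] (ω ^ l * w) =
      ω ^ (l * (n + 1) ^ k) * (map (fam a n x))^[k] w := fun k l w =>
    iter_sym (f := map (fam a n x)) hsymS k l w
  refine ⟨fam a n x, s, p, z, by rw [hdegS, hn], by rw [hlcS, ha'],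
    ⟨fun w => by rw [hdegS]; exact hsymS w, hcritS, hdisS⟩, ?_, hε', ?_, hnone, hsome, hpinj, ?_⟩
  · intro j
    have h1 := hcoeff x (hclx.trans_le ((min_le_left _ _).trans (min_le_right _ _))) j
    rwa [hTfam] at h1
  · -- hyperbolicity
    intro u hu
    have hb : ((fam a n x).natDegree : ℂ) * (fam a n x).leadingCoeff ≠ 0 := by
      rw [hdegS, hlcS]
      push_cast
      exact mul_ne_zero (Nat.cast_add_one_ne_zero n) ha
    obtain ⟨i, l, rfl⟩ := (hroot (fam a n x) s _ hb hcritS u).mp hu
    rcases hτi : τ i with _ | j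
    · left
      have h1 := hnone i hτi
      unfold Escapes
      have h2 : (fun k : ℕ => ‖(map (fam a n x))^[k] (ω ^ l * s i)‖) =
          fun k : ℕ => ‖(fx a n x)^[k] (s i)‖ := by
        funext k
        rw [hiter, norm_mul, norm_pow, hωn, one_pow, one_mul, hmapS]
      rw [h2]
      exact h1
    · right
      obtain ⟨e1, e2, e3, e4, e5⟩ := hpz j
      have h1 := hsome i j hτi
      have hp1 : 1 ≤ p j := e1.one_lt.le
      have hcases : ω ^ (n + 1) = 1 ∨ ω ^ n = 1 := by
        by_cases h : (derivative T).eval 0 = 0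
        · exact Or.inl (hcase0 h)
        · exact Or.inr (hcase1 h).1
      rcases hcases with h | h
      · refine ⟨p j, z j, ⟨hp1, e3, e5⟩, ?_⟩
        unfold Goes
        refine h1.congr' ?_
        filter_upwards [eventually_ge_atTop 1] with k hk
        rw [hiter, hmapS]
        have h2 : ω ^ (l * (n + 1) ^ (p j * k)) = 1 := by
          obtain ⟨b, hb⟩ : ∃ b, p j * k = b + 1 := ⟨p j * k - 1, by
            have : 1 ≤ p j * k := Nat.mul_pos hp1 hk
            omega⟩
          rw [hb, pow_succ, ← mul_assoc, mul_comm (l * (n + 1) ^ b), pow_mul, h, one_pow]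
        rw [h2, one_mul]
      · have hpow : ∀ k : ℕ, ω ^ (l * (n + 1) ^ k) = ω ^ l := by
          intro k
          induction k with
          | zero => simp
          | succ k ih =>
            have h3 : l * (n + 1) ^ (k + 1) = n * (l * (n + 1) ^ k) + l * (n + 1) ^ k := by ring
            rw [h3, pow_add, pow_mul, h, one_pow, one_mul, ih]
        refine ⟨p j, ω ^ l * z j, ⟨hp1, ?_, ?_⟩, ?_⟩
        · rw [hiter, hpow, hmapS, e3]
        · have h4 : (map (fam a n x))^[p j] = fun w =>
              ω ^ l * (map (fam a n x))^[p j] ((ω ^ l)⁻¹ * w) := by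
            funext w
            have h5 := hiter (p j) l ((ω ^ l)⁻¹ * w)
            rw [hpow, ← mul_assoc, mul_inv_cancel₀ (pow_ne_zero l hω0), one_mul] at h5
            exact h5
          have hdf : Differentiable ℂ ((map (fam a n x))^[p j]) := by
            rw [hmapS]
            exact (fx_differentiable a n x).iterate _
          have h6 : HasDerivAt (fun w => ω ^ l * (map (fam a n x))^[p j] ((ω ^ l)⁻¹ * w))
              (ω ^ l * (deriv ((map (fam a n x))^[p j]) (z j) * (ω ^ l)⁻¹)) (ω ^ l * z j) := by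
            have h7 : HasDerivAt (fun w : ℂ => (ω ^ l)⁻¹ * w) ((ω ^ l)⁻¹) (ω ^ l * z j) := by
              simpa using (hasDerivAt_id (ω ^ l * z j)).const_mul ((ω ^ l)⁻¹)
            have h8 : (ω ^ l)⁻¹ * (ω ^ l * z j) = z j := by
              rw [← mul_assoc, inv_mul_cancel₀ (pow_ne_zero l hω0), one_mul]
            have h9 : HasDerivAt ((map (fam a n x))^[p j])
                (deriv ((map (fam a n x))^[p j]) (z j)) ((ω ^ l)⁻¹ * (ω ^ l * z j)) := by
              rw [h8]
              exact (hdf (z j)).hasDerivAt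
            exact (HasDerivAt.comp (ω ^ l * z j) h9 h7).const_mul (ω ^ l)
          rw [← h4] at h6
          rw [h6.deriv]
          have h10 : ω ^ l * (deriv ((map (fam a n x))^[p j]) (z j) * (ω ^ l)⁻¹) =
              deriv ((map (fam a n x))^[p j]) (z j) := by
            field_simp
          rw [h10, hmapS]
          exact e5
        · unfold Goes
          have h5 : (fun k : ℕ => (map (fam a n x))^[p j * k] (ω ^ l * s i)) =
              fun k : ℕ => ω ^ l * (fx a n x)^[p j * k] (s i) := by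
            funext k
            rw [hiter, hpow, hmapS]
          rw [h5]
          exact h1.const_mul (ω ^ l)
  · intro j
    obtain ⟨e1, e2, e3, e4, e5⟩ := hpz j
    exact ⟨e1, e2, ⟨e1.pos, e3, e5⟩, Pool.Agent.W820.BM.minPer e1 e3 e4⟩

end Pool.Agent.Results.MP_28f8a1_an.TypesInSymmetricStrata
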