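import Mathlib
import Pool.Agent.Run7.h598.TT.Fin

set_option autoImplicit false

open Filter Topology Polynomial MeasureTheory

namespace Pool.Agent.Results.MP_28f8a1_an.TypesWithPersistentSinks

/-- The polynomial as a self-map of the plane. -/
def map (T : ℂ[X]) : ℂ → ℂ := fun w : ℂ => T.eval w

/-- The orbit of `u` escapes to infinity. -/
def Escapes (T : ℂ[X]) (u : ℂ) : Prop :=
  Tendsto (fun k : ℕ => ‖(map T)^[k] u‖) atTop atTop

/-- `w` is a sink of `T`, and `q > 0` is a (not necessarily minimal) period of `w`. -/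
structure Sink (T : ℂ[X]) (q : ℕ) (w : ℂ) : Prop where
  pos : 0 < q
  fix : (map T)^[q] w = w
  mul : ‖deriv ((map T)^[q]) w‖ < 1

/-- The points `T^(q l) (u)` converge to `w`. -/
def Goes (T : ℂ[X]) (q : ℕ) (w u : ℂ) : Prop :=
  Tendsto (fun l : ℕ => (map T)^[q * l] u) atTop (𝓝 w)

/-- `u` neither escapes nor is attracted by a sink. -/
def Bad (T : ℂ[X]) (u : ℂ) : Prop :=
  ¬ Escapes T u ∧ ¬ ∃ (q : ℕ) (w : ℂ), Sink T q w ∧ Goes T q w u

/-- `T` has degree `n + 1`, and `c 0, …, c (n - 1)` are its critical points, listed with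
multiplicity. -/
def CritList {n : ℕ} (T : ℂ[X]) (c : Fin n → ℂ) : Prop :=
  T.natDegree = n + 1 ∧
    derivative T = C (((n : ℂ) + 1) * T.leadingCoeff) * ∏ i, (X - C (c i))

/-- If `u` is attracted by a sink, then this sink is not superattracting and `u` is not eventually
mapped onto it. -/
def Nondegenerate (T : ℂ[X]) (u : ℂ) : Prop :=
  ∀ (q : ℕ) (w : ℂ), Sink T q w → Goes T q w u →
    deriv ((map T)^[q]) w ≠ 0 ∧ ∀ l : ℕ, (map T)^[l] u ≠ w

open Pool.Agent.H713R3.ZA Pool.Agent.H713R5.QJ in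
/-- Let `T` be a polynomial of degree `n + 1 ≥ 2` with critical points `c i` such that almost every
point of the plane escapes or is attracted by a sink, and such that the attracted critical points
are nondegenerate. Then the critical points which neither escape nor are attracted by a sink can
be distributed ARBITRARILY by a small perturbation which keeps all the others: for every `ε > 0`,
every assignment `τ` of a type to the bad critical points (`none`: to escape, `some j` with `j < k`: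
to be attracted by the new sink number `j`) and every `N` there is a polynomial `S` of the same
degree and with the same leading coefficient, with coefficients and critical points `s i` within
`ε` of those of `T`, such that `s i` escapes if `c i` escapes, `s i` is attracted by a sink within
`ε` of the old one and of the same minimal period if `c i` is attracted by a sink, and `s i` has
the prescribed type if `c i` is bad; the minimal periods `p j` of the `k` new sinks are different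
primes `p j ≥ N`. In particular `S` is hyperbolic. -/
theorem result (n : ℕ) (hn : 1 ≤ n) (T : ℂ[X]) (c : Fin n → ℂ) (hc : CritList T c)
    (hvol : volume {z : ℂ | Bad T z} = 0) (hnd : ∀ i, Nondegenerate T (c i))
    (ε : ℝ) (hε : 0 < ε) (k : ℕ) (τ : Fin n → Option (Fin k))
    (hτ : ∀ j, ∃ i, Bad T (c i) ∧ τ i = some j) (N : ℕ) :
    ∃ (S : ℂ[X]) (s : Fin n → ℂ) (p : Fin k → ℕ) (z : Fin k → ℂ),
      CritList S s ∧ S.leadingCoeff = T.leadingCoeff ∧
      (∀ j : ℕ, ‖S.coeff j - T.coeff j‖ < ε) ∧ (∀ i, ‖s i - c i‖ < ε) ∧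
      (∀ i, Escapes T (c i) → Escapes S (s i)) ∧
      (∀ i q w, Sink T q w → Goes T q w (c i) → ∃ w' : ℂ, ‖w' - w‖ < ε ∧ Sink S q w' ∧
        Goes S q w' (s i) ∧
        Function.minimalPeriod (map S) w' = Function.minimalPeriod (map T) w) ∧
      (∀ i, Bad T (c i) → τ i = none → Escapes S (s i)) ∧
      (∀ i j, Bad T (c i) → τ i = some j → Goes S (p j) (z j) (s i)) ∧
      Function.Injective p ∧
      ∀ j, (p j).Prime ∧ N ≤ p j ∧ Sink S (p j) (z j) ∧
        Function.minimalPeriod (map S) (z j) = p j := by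
  classical
  have hlc : T.leadingCoeff ≠ 0 := by
    rw [Ne, leadingCoeff_eq_zero]
    rintro rfl
    have := hc.1
    simp at this
  obtain ⟨a, ha'⟩ : ∃ a : ℂ, a = T.leadingCoeff := ⟨_, rfl⟩
  have ha : a ≠ 0 := by rw [ha']; exact hlc
  have hT := Pool.Agent.W820.BM.fam_of_deriv hc.2
  rw [← ha'] at hT
  set xT : PE n := fun o => o.elim (T.coeff 0) c with hxT
  have hxi : ∀ i, xT (some i) = c i := fun i => rfl
  have hmap : map T = fx a n xT := by
    unfold map fx
    rw [hT]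
  have hbadG : ∀ u : ℂ, Bad T u ↔ ¬ Good (fx a n xT) u := by
    intro u
    unfold Bad Escapes Good AT Sk
    rw [hmap, not_or]
    constructor
    · rintro ⟨h1, h2⟩
      refine ⟨h1, ?_⟩
      rintro ⟨q, hq, w, e1, e2, e3⟩
      exact h2 ⟨q, w, ⟨hq, by rw [hmap]; exact e1, by rw [hmap]; exact e2⟩, by
        unfold Goes; rw [hmap]; exact e3⟩
    · rintro ⟨h1, h2⟩
      refine ⟨h1, ?_⟩
      rintro ⟨q, w, ⟨hq, e1, e2⟩, e3⟩
      unfold Goes at e3
      rw [hmap] at e1 e2 e3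
      exact h2 ⟨q, hq, w, e1, e2, e3⟩
  -- the attracted critical points
  set Ee : Finset (Fin n) := Finset.univ.filter (fun i => Escapes T (c i)) with hEe
  set Es : Finset (Fin n) := Finset.univ.filter (fun i => ∃ P : ℕ, 0 < P ∧
    AT (fx a n xT) P (xT (some i))) with hEs
  have hEem : ∀ i, i ∈ Ee ↔ Escapes T (c i) := fun i => by simp [hEe]
  have hEsm : ∀ i, i ∈ Es ↔ ∃ P : ℕ, 0 < P ∧ AT (fx a n xT) P (xT (some i)) := fun i => by
    simp [hEs]
  have hesc : ∀ i, i ∈ Ee ↔ Tendsto (fun k : ℕ => ‖(fx a n xT)^[k] (xT (some i))‖) atTop atTop := by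
    intro i
    rw [hEem, Escapes, hmap]
    exact Iff.rfl
  have hse : ∀ i ∈ Ee, i ∉ Es := by
    intro i hi hi'
    obtain ⟨P, hP, hA⟩ := (hEsm i).mp hi'
    exact not_at_of_esc hP ((hesc i).mp hi) hA
  have hbadi : ∀ i, Bad T (c i) ↔ (i ∉ Es ∧ i ∉ Ee) := by
    intro i
    rw [hbadG, hesc, hEsm]
    unfold Good
    rw [not_or, and_comm]
    exact Iff.rfl
  -- the common period
  have hper : ∀ i : Fin n, ∃ P : ℕ, 0 < P ∧ (i ∈ Es → AT (fx a n xT) P (xT (some i))) := by
    intro i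
    by_cases hi : i ∈ Es
    · obtain ⟨P, hP, h3⟩ := (hEsm i).mp hi
      exact ⟨P, hP, fun _ => h3⟩
    · exact ⟨1, one_pos, fun h => absurd h hi⟩
  choose Pf hPf hPf' using hper
  obtain ⟨P, hPdef⟩ : ∃ P : ℕ, P = ∏ i, Pf i := ⟨_, rfl⟩
  have hP : 0 < P := by rw [hPdef]; exact Finset.prod_pos fun i _ => hPf i
  have hxA : ∀ i ∈ Es, AT (fx a n xT) P (xT (some i)) := by
    intro i hi
    obtain ⟨k, hk⟩ : Pf i ∣ P := by
      rw [hPdef]; exact Finset.dvd_prod_of_mem Pf (Finset.mem_univ i)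
    rw [hk]
    apply hh.atm _ _ _ _ (Pool.Agent.H713R3.ZA.fx_differentiable a n xT) (hPf i) _ (hPf' i hi)
    rcases Nat.eq_zero_or_pos k with h0 | h0
    · rw [h0, mul_zero] at hk; omega
    · exact h0
  -- nondegeneracy
  have hnd' : ∀ i ∈ Es, LP (fx a n xT) P (xT (some i)) ≠ 0 ∧
      ∀ l : ℕ, (fx a n xT)^[l] (xT (some i)) ≠ SP (fx a n xT) P (xT (some i)) := by
    intro i hi
    obtain ⟨h1, h2, h3⟩ := A0_Sk hh hP (hxA i hi)
    have h4 := hnd i P (SP (fx a n xT) P (xT (some i)))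
      ⟨hP, by rw [hmap]; exact h1, by rw [hmap]; exact h2⟩ (by
        unfold Goes; rw [hmap]; exact h3)
    rw [hmap] at h4
    exact h4
  obtain ⟨l₀, l₁, hl0, hl1, hl1', hlb⟩ := exists_lam Es (fun i => LP (fx a n xT) P (xT (some i)))
    (fun i hi => ⟨(hnd' i hi).1, (A0_Sk hh hP (hxA i hi)).2.1⟩)
  obtain ⟨r₁, r₂, -, hKL⟩ := hh.ko3 hh.ko0 a n P (‖xT‖ + 1) l₀ l₁ 1 ha hn hP
    (by positivity) hl0 hl1' one_pos
  have hEs' : ∀ i ∈ Es, (xT, xT (some i)) ∈ A0 a n P ∧ KP (fx a n xT) P (xT (some i)) ≠ 0 := by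
    intro i hi
    have hA : (xT, xT (some i)) ∈ A0 a n P := ⟨hxA i hi, (hnd' i hi).1⟩
    exact ⟨hA, Run7.h598.TT.KP_ne_zero hh ha hn hP hKL (by simp) hA (hlb i hi).1 (hlb i hi).2
      (hnd' i hi).2⟩
  have hvol' : volume {z : ℂ | ¬ Good (fx a n xT) z} = 0 := by
    have h1 : {z : ℂ | ¬ Good (fx a n xT) z} = {z : ℂ | Bad T z} := by
      ext u
      exact (hbadG u).symm
    rw [h1]
    exact hvol
  obtain ⟨ε₁, hε₁, hcoeff⟩ := Run7.h598.TT.coeff_close a n xT hε
  obtain ⟨x, p, z, hx1, hx2, hx3, hx4, hx5, hx6, hx7⟩ := Run7.h598.TT.main_loc hh ha hn xT hP hse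
    hEs' (fun i hi => (hesc i).mp hi) (fun i h1 h2 => (hbadG _).mp ((hbadi i).mpr ⟨h1, h2⟩)) hvol'
    (lt_min hε hε₁) k τ (fun j => by
      obtain ⟨i, h1, h2⟩ := hτ j
      exact ⟨i, (hbadi i).mp h1, h2⟩) N
  have hmapS : map (fam a n x) = fx a n x := rfl
  refine ⟨fam a n x, fun i => x (some i), p, z, ⟨natDegree_fam ha n x, ?_⟩, ?_, ?_, ?_, ?_, ?_, ?_,
    ?_, hx4, ?_⟩
  · rw [Pool.Agent.W820.BM.leadingCoeff_fam ha, derivative_fam, mul_comm]
    unfold dfam
    rw [mul_comm a, mul_comm]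
  · rw [Pool.Agent.W820.BM.leadingCoeff_fam ha, ha']
  · intro j
    have h1 := hcoeff x (hx1.trans_le (min_le_right _ _)) j
    rwa [hT] at h1
  · intro i
    have h1 : ‖(x - xT) (some i)‖ ≤ ‖x - xT‖ := norm_le_pi_norm (x - xT) (some i)
    exact (h1.trans_lt hx1).trans_le (min_le_left _ _)
  · intro i hi
    exact hx2 i ((hEem i).mpr hi)
  · intro i q w hw hgo
    have hw1 := hw.fix
    have hw2 := hw.mul
    unfold Goes at hgo
    rw [hmap] at hw1 hw2 hgo
    have hi : i ∈ Es := (hEsm i).mpr ⟨q, hw.pos, w, hw1, hw2, hgo⟩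
    obtain ⟨h1, h2, h3⟩ := hx3 i hi
    have h4 : SP (fx a n xT) P (xT (some i)) = w :=
      Run7.h598.TT.SP_unique hh hP hw.pos (hxA i hi) hgo
    rw [h4] at h2 h3
    have h5 : (fx a n x)^[q] (SP (fx a n x) P (x (some i))) = SP (fx a n x) P (x (some i)) :=
      (h3 q).mpr hw1
    obtain ⟨h6, h7⟩ := Run7.h598.TT.sink_period hh hP hw.pos h1 h5
    refine ⟨SP (fx a n x) P (x (some i)), h2.trans_le (min_le_left _ _), ⟨hw.pos, h5, h6⟩, h7, ?_⟩
    rw [Function.minimalPeriod_eq_minimalPeriod_iff]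
    intro m
    rw [hmap, hmapS]
    exact h3 m
  · intro i hi hi2
    obtain ⟨h1, h2⟩ := (hbadi i).mp hi
    exact hx6 i h1 h2 hi2
  · intro i j hi hij
    obtain ⟨h1, h2⟩ := (hbadi i).mp hi
    exact hx7 i j h1 h2 hij
  · intro j
    obtain ⟨h1, h2, h3, h4, h5⟩ := hx5 j
    exact ⟨h1, h2, ⟨h1.pos, h3, h5⟩, Pool.Agent.W820.BM.minPer h1 h3 h4⟩

end Pool.Agent.Results.MP_28f8a1_an.TypesWithPersistentSinks
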