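import Mathlib
import Pool.Agent.Run7.h598.QT.QFin
import Pool.Agent.H713R5.QJ.TSCL
import Pool.Agent.W820.BM.Asm6

set_option autoImplicit false

open Filter Topology Polynomial MeasureTheory

namespace Pool.Agent.Results.MP_28f8a1_an.TypesWithinAreaDistance

/-- The polynomial as a self-map of the plane. -/
def map (T : ℂ[X]) : ℂ → ℂ := fun w : ℂ => T.eval w

/-- The orbit of `z` escapes to infinity. -/
def Escapes (T : ℂ[X]) (z : ℂ) : Prop :=
  Tendsto (fun k : ℕ => ‖(map T)^[k] z‖) atTop atTop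

/-- The filled Julia set: the points which do not escape. -/
def K (T : ℂ[X]) : Set ℂ := {z : ℂ | ¬ Escapes T z}

/-- `T` has degree `n + 1`, and `c 0, …, c (n - 1)` are its critical points, listed with
multiplicity. -/
def CritList {n : ℕ} (T : ℂ[X]) (c : Fin n → ℂ) : Prop :=
  T.natDegree = n + 1 ∧
    derivative T = C (((n : ℂ) + 1) * T.leadingCoeff) * ∏ i, (X - C (c i))

/-- `S` is hyperbolic of type `τ`: `s` lists its critical points, the points `z j` (`j < k`) are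
sinks with `S^(p j) (z j) = z j`, the critical point `s i` escapes if `τ i = none`, and it is
attracted by the sink `z j` if `τ i = some j`. -/
structure HasType {n k : ℕ} (S : ℂ[X]) (s : Fin n → ℂ) (τ : Fin n → Option (Fin k))
    (p : Fin k → ℕ) (z : Fin k → ℂ) : Prop where
  crit : CritList S s
  sink : ∀ j, 0 < p j ∧ (map S)^[p j] (z j) = z j ∧ ‖deriv ((map S)^[p j]) (z j)‖ < 1
  esc : ∀ i, τ i = none → Escapes S (s i)
  att : ∀ i j, τ i = some j →
    Tendsto (fun l : ℕ => (map S)^[p j * l] (s i)) atTop (𝓝 (z j))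

open Pool.Agent.H713R5.QJ

theorem map_eq (T : ℂ[X]) : map T = ev T := rfl

theorem CritList.scale {n : ℕ} {T : ℂ[X]} {c : Fin n → ℂ} (h : CritList T c) {l : ℂ} (hl : l ≠ 0) :
    CritList (sc l T) (fun i => l * c i) ∧
      (sc l T).leadingCoeff = l * l⁻¹ ^ (n + 1) * T.leadingCoeff := by
  obtain ⟨hdeg, hcoef, -, -, -⟩ := scl_holds l T hl
  have hlead : (sc l T).leadingCoeff = l * l⁻¹ ^ (n + 1) * T.leadingCoeff := by
    rw [leadingCoeff, hdeg, hcoef, leadingCoeff, h.1]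
  refine ⟨⟨by rw [hdeg, h.1], ?_⟩, hlead⟩
  have h1 : derivative (sc l T) = (derivative T).comp (C l⁻¹ * X) := by
    unfold sc
    rw [derivative_C_mul, derivative_comp, derivative_C_mul, derivative_X, mul_one, ← mul_assoc,
      ← C_mul, mul_inv_cancel₀ hl, C_1, one_mul]
  rw [h1, h.2, mul_comp, C_comp, prod_comp, hlead]
  have h2 : ∀ i, (X - C (c i)).comp (C l⁻¹ * X) = C l⁻¹ * (X - C (l * c i)) := by
    intro i
    rw [sub_comp, X_comp, C_comp, mul_sub, ← C_mul, ← mul_assoc, inv_mul_cancel₀ hl, one_mul]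
  simp only [h2]
  rw [Finset.prod_mul_distrib, Finset.prod_const, Finset.card_univ, Fintype.card_fin, ← C_pow,
    ← mul_assoc, ← C_mul]
  congr 2
  rw [pow_succ]
  field_simp

theorem esc_scale {T : ℂ[X]} {l : ℂ} (hl : l ≠ 0) (z : ℂ) :
    Escapes (sc l T) (l * z) ↔ Escapes T z := by
  unfold Escapes
  simp only [map_eq, SCL.iter_sc hl, norm_mul]
  have h0 : 0 < ‖l‖ := norm_pos_iff.2 hl
  constructor
  · intro h
    exact (tendsto_const_mul_atTop_of_pos h0).mp h
  · intro h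
    exact h.const_mul_atTop h0

theorem HasType.scale {n k : ℕ} {S : ℂ[X]} {s : Fin n → ℂ} {τ : Fin n → Option (Fin k)}
    {p : Fin k → ℕ} {z : Fin k → ℂ} (h : HasType S s τ p z) {l : ℂ} (hl : l ≠ 0) :
    HasType (sc l S) (fun i => l * s i) τ p (fun j => l * z j) := by
  refine ⟨(h.crit.scale hl).1, fun j => ?_, fun i hi => (esc_scale hl _).mpr (h.esc i hi),
    fun i j hij => ?_⟩
  · obtain ⟨h1, h2, h3⟩ := h.sink j
    refine ⟨h1, ?_, ?_⟩
    · rw [map_eq, SCL.iter_sc hl, ← map_eq, h2]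
    · rw [map_eq, SCL.deriv_iter hl, ← map_eq]
      exact h3
  · simp only [map_eq, SCL.iter_sc hl]
    exact (h.att i j hij).const_mul l

theorem K_scale {T : ℂ[X]} {l : ℂ} (hl : l ≠ 0) :
    volume (K (sc l T)) = ENNReal.ofReal (‖l‖ ^ 2) * volume (K T) := by
  have h : K (sc l T) = (fun z : ℂ => l * z) '' K T := by
    ext w
    constructor
    · intro hw
      refine ⟨l⁻¹ * w, ?_, ?_⟩
      · intro h1
        apply hw
        have h2 := (esc_scale hl (T := T) (l⁻¹ * w)).mpr h1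
        rwa [← mul_assoc, mul_inv_cancel₀ hl, one_mul] at h2
      · show l * (l⁻¹ * w) = w
        rw [← mul_assoc, mul_inv_cancel₀ hl, one_mul]
    · rintro ⟨z, hz, rfl⟩
      intro h1
      exact hz ((esc_scale hl z).mp h1)
  rw [h, SCL.vol_mul]

/-- **Every hyperbolic type within the distance `C * sqrt (area (K T))`, for all polynomials.** Let
`T` be a polynomial of degree `n + 1 ≥ 2` with coefficients bounded by `A` and leading coefficient
at least `1 / A` in modulus. Some critical points `c i` of `T` may escape. Then for every way `τ` to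
let these escape and to distribute ALL the others (to make them escape too, or to let them be
attracted by one of `k` sinks, each of which attracts at least one of them) there is a hyperbolic
polynomial `S` of the type `τ` with the same degree and leading coefficient and with coefficients
within `ε` of those of `T`, as soon as `ε` is larger than `C * sqrt (area (K T))`; the constant `C`
depends only on `n` and `A`, and the periods of the sinks divide different primes `p j ≥ N`. -/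
theorem result (n : ℕ) (hn : 1 ≤ n) (A : ℝ) : ∃ C : ℝ, 0 < C ∧
    ∀ (T : ℂ[X]) (c : Fin n → ℂ), CritList T c → (∀ j : ℕ, ‖T.coeff j‖ ≤ A) →
      1 / A ≤ ‖T.leadingCoeff‖ → volume (K T) < ⊤ ∧
      ∀ ε : ℝ, C * Real.sqrt (volume (K T)).toReal < ε →
      ∀ (k : ℕ) (τ : Fin n → Option (Fin k)), (∀ i, Escapes T (c i) → τ i = none) →
      (∀ j, ∃ i, τ i = some j) → ∀ N : ℕ,
      ∃ (S : ℂ[X]) (s : Fin n → ℂ) (p : Fin k → ℕ) (z : Fin k → ℂ),
        HasType S s τ p z ∧ S.leadingCoeff = T.leadingCoeff ∧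
        (∀ j : ℕ, ‖S.coeff j - T.coeff j‖ < ε) ∧
        Function.Injective p ∧ ∀ j, (p j).Prime ∧ N ≤ p j := by
  obtain ⟨A', hA'⟩ : ∃ A' : ℝ, A' = max A 1 := ⟨_, rfl⟩
  have hA'1 : 1 ≤ A' := by rw [hA']; exact le_max_right _ _
  have hA'0 : 0 < A' := by linarith
  have hAA' : A ≤ A' := by rw [hA']; exact le_max_left _ _
  obtain ⟨C₁, hC₁, hq⟩ := Run7.h598.QT.quant (one_ne_zero (α := ℂ)) hn (b := A' ^ (n + 3))
    (by positivity)
  refine ⟨C₁ * A' ^ (n + 3), by positivity, ?_⟩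
  intro T c hc hTA hTl
  have hT0 : T ≠ 0 := by
    rintro rfl
    have := hc.1
    simp at this
  obtain ⟨a, haT⟩ : ∃ a : ℂ, a = T.leadingCoeff := ⟨_, rfl⟩
  have ha : a ≠ 0 := by rw [haT]; exact leadingCoeff_ne_zero.mpr hT0
  have ha0 : 0 < ‖a‖ := norm_pos_iff.2 ha
  have haA : ‖a‖ ≤ A' := by
    rw [haT]
    exact (hTA _).trans hAA'
  have hA0 : 0 < A := by
    have h1 := hTA T.natDegree
    rw [← leadingCoeff, ← haT] at h1
    linarith
  have haA' : A'⁻¹ ≤ ‖a‖ := by
    rw [haT]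
    refine le_trans ?_ hTl
    rw [one_div]
    exact inv_anti₀ hA0 hAA'
  -- the scaling
  obtain ⟨l, hla⟩ : ∃ l : ℂ, l ^ n = a := IsAlgClosed.exists_pow_nat_eq a (by omega)
  have hl : l ≠ 0 := by
    rintro rfl
    rw [zero_pow (by omega)] at hla
    exact ha hla.symm
  have hl0 : 0 < ‖l‖ := norm_pos_iff.2 hl
  have hln : ‖l‖ ^ n = ‖a‖ := by rw [← norm_pow, hla]
  have hlA : ‖l‖ ≤ A' := by
    by_contra hcon
    push Not at hcon
    have h1 : ‖l‖ ≤ ‖l‖ ^ n := le_self_pow₀ (by linarith) (by omega)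
    linarith
  have hlA' : ‖l‖⁻¹ ≤ A' := by
    by_contra hcon
    push Not at hcon
    have h1 : ‖l‖⁻¹ ≤ ‖l‖⁻¹ ^ n := le_self_pow₀ (by linarith) (by omega)
    have h2 : ‖a‖⁻¹ ≤ A' := by
      rw [inv_le_comm₀ ha0 hA'0]
      exact haA'
    rw [inv_pow, hln] at h1
    linarith
  obtain ⟨hcs, hlead⟩ := hc.scale hl
  obtain ⟨hdeg, hcoef, -, -, -⟩ := scl_holds l T hl
  have hlead1 : (sc l T).leadingCoeff = 1 := by
    rw [hlead, ← haT, ← hla, pow_succ, inv_pow]
    field_simp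
  have hfam := Pool.Agent.W820.BM.fam_of_deriv hcs.2
  rw [hlead1] at hfam
  set xT : Pool.Agent.H713R3.ZA.PE n := fun o => o.elim ((sc l T).coeff 0) (fun i => l * c i)
    with hxT
  have hfx : Pool.Agent.H713R3.ZA.fx 1 n xT = map (sc l T) := by
    unfold map Pool.Agent.H713R3.ZA.fx
    rw [hfam]
  have hbd : ∀ j, ‖(Pool.Agent.H713R3.ZA.fam 1 n xT).coeff j‖ ≤ A' ^ (n + 3) := by
    intro j
    rw [hfam, hcoef]
    by_cases hj : j ≤ n + 1
    · rw [norm_mul, norm_mul, norm_pow, norm_inv]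
      have h1 : ‖l‖⁻¹ ^ j ≤ A' ^ (n + 1) :=
        (pow_le_pow_left₀ (by positivity) hlA' j).trans (pow_le_pow_right₀ hA'1 hj)
      calc ‖l‖ * ‖l‖⁻¹ ^ j * ‖T.coeff j‖ ≤ A' * A' ^ (n + 1) * A' := by
            apply mul_le_mul (mul_le_mul hlA h1 (by positivity) hA'0.le) ((hTA j).trans hAA')
              (norm_nonneg _) (by positivity)
        _ = A' ^ (n + 3) := by ring
    · rw [coeff_eq_zero_of_natDegree_lt (by rw [hc.1]; omega), mul_zero, norm_zero]
      positivity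
  obtain ⟨hvol, hq⟩ := hq xT hbd
  have hKJ : Pool.Agent.H713R3.ZA.KJ (Pool.Agent.H713R3.ZA.fam 1 n xT) = K (sc l T) := by
    rw [hfam]
    rfl
  rw [hKJ, K_scale hl] at hvol hq
  have hl2 : (0 : ℝ) < ‖l‖ ^ 2 := by positivity
  have hvolT : volume (K T) < ⊤ := by
    rw [lt_top_iff_ne_top]
    intro h
    rw [h, ENNReal.mul_top (by simpa using hl)] at hvol
    exact absurd hvol (lt_irrefl _)
  refine ⟨hvolT, ?_⟩
  intro ε hε k τ hesc hτ N
  have hεA : 0 < A' ^ (n + 2) := by positivity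
  have hsq : Real.sqrt (ENNReal.ofReal (‖l‖ ^ 2) * volume (K T)).toReal =
      ‖l‖ * Real.sqrt (volume (K T)).toReal := by
    rw [ENNReal.toReal_mul, ENNReal.toReal_ofReal hl2.le, Real.sqrt_mul hl2.le,
      Real.sqrt_sq hl0.le]
  rw [hsq] at hq
  have hs0 : 0 ≤ Real.sqrt (volume (K T)).toReal := Real.sqrt_nonneg _
  obtain ⟨x, p, z, e1, e2, e3, e4, e5⟩ := hq (ε / A' ^ (n + 2)) (by
    rw [lt_div_iff₀ hεA]
    refine lt_of_le_of_lt ?_ hε
    have h1 : ‖l‖ * Real.sqrt (volume (K T)).toReal ≤ A' * Real.sqrt (volume (K T)).toReal :=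
      mul_le_mul_of_nonneg_right hlA hs0
    calc C₁ * (‖l‖ * Real.sqrt (volume (K T)).toReal) * A' ^ (n + 2) ≤
          C₁ * (A' * Real.sqrt (volume (K T)).toReal) * A' ^ (n + 2) :=
        mul_le_mul_of_nonneg_right (mul_le_mul_of_nonneg_left h1 hC₁.le) hεA.le
      _ = C₁ * A' ^ (n + 3) * Real.sqrt (volume (K T)).toReal := by ring) k τ (by
    intro i hi
    rw [hfx] at hi
    exact hesc i ((esc_scale hl _).mp hi)) hτ N
  have hmapS : map (Pool.Agent.H713R3.ZA.fam 1 n x) = Pool.Agent.H713R3.ZA.fx 1 n x := rfl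
  have htype : HasType (Pool.Agent.H713R3.ZA.fam 1 n x) (fun i => x (some i)) τ p z := by
    refine ⟨⟨Pool.Agent.H713R3.ZA.natDegree_fam one_ne_zero n x, ?_⟩, fun j =>
      ⟨(e3 j).1.pos, (e3 j).2.2.1, (e3 j).2.2.2⟩, e4, e5⟩
    rw [Pool.Agent.W820.BM.leadingCoeff_fam one_ne_zero, Pool.Agent.H713R3.ZA.derivative_fam,
      mul_comm]
    unfold Pool.Agent.H713R3.ZA.dfam
    rw [mul_comm 1, mul_comm]
  have hli : l⁻¹ ≠ 0 := inv_ne_zero hl
  have htype' := htype.scale hli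
  have hcoefS := (scl_holds l⁻¹ (Pool.Agent.H713R3.ZA.fam 1 n x) hli).2.1
  have hTT : ∀ j, T.coeff j = l⁻¹ * l ^ j * (sc l T).coeff j := by
    intro j
    rw [hcoef, inv_pow]
    field_simp
  refine ⟨sc l⁻¹ (Pool.Agent.H713R3.ZA.fam 1 n x), fun i => l⁻¹ * x (some i), p,
    fun j => l⁻¹ * z j, htype', ?_, ?_, e2, fun j => ⟨(e3 j).1, (e3 j).2.1⟩⟩
  · rw [(htype.crit.scale hli).2, Pool.Agent.W820.BM.leadingCoeff_fam one_ne_zero, inv_inv, mul_one,
      ← haT, ← hla, pow_succ]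
    field_simp
  · intro j
    rw [hcoefS, hTT, inv_inv, ← mul_sub, ← hfam, norm_mul, norm_mul, norm_pow, norm_inv]
    by_cases hj : j ≤ n + 1
    · have h1 : ‖l‖⁻¹ * ‖l‖ ^ j ≤ A' ^ (n + 2) := by
        have h2 : ‖l‖ ^ j ≤ A' ^ (n + 1) :=
          (pow_le_pow_left₀ hl0.le hlA j).trans (pow_le_pow_right₀ hA'1 hj)
        calc ‖l‖⁻¹ * ‖l‖ ^ j ≤ A' * A' ^ (n + 1) :=
              mul_le_mul hlA' h2 (by positivity) hA'0.le
          _ = A' ^ (n + 2) := by ring
      have h3 := e1 j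
      rw [lt_div_iff₀ hεA] at h3
      refine lt_of_le_of_lt (mul_le_mul_of_nonneg_right h1 (norm_nonneg _)) ?_
      rwa [mul_comm]
    · have h1 : (Pool.Agent.H713R3.ZA.fam 1 n x).coeff j = 0 :=
        coeff_eq_zero_of_natDegree_lt (by
          rw [Pool.Agent.H713R3.ZA.natDegree_fam one_ne_zero]; omega)
      have h2 : (Pool.Agent.H713R3.ZA.fam 1 n xT).coeff j = 0 :=
        coeff_eq_zero_of_natDegree_lt (by
          rw [Pool.Agent.H713R3.ZA.natDegree_fam one_ne_zero]; omega)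
      rw [h1, h2, sub_zero, norm_zero, mul_zero]
      exact lt_of_le_of_lt (by positivity) hε

end Pool.Agent.Results.MP_28f8a1_an.TypesWithinAreaDistance
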